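import Pool.Agent.Helper28.TK.StK

/-!
# Project TK, module TLC: the central value of the twisted `L`-function in weight `2A+2`
-/

set_option autoImplicit false

namespace Pool.Agent.Helper66.TK

open Pool.Agent.Helper28.TK Pool.Agent.Helper14.WK
open Pool.Agent.Helper14.CV (G0)
open Pool.Agent.Helper76.TX (tau StAN3)

/-- The right side `mellin hXK (s+e) (2π)^(s+e) (1/Γ(s+e))`. -/
private noncomputable def phi {N D : ℕ} {k : ℤ} (χ : DirichletCharacter ℂ D)
    (f : CuspForm (G0 N) k) (e : ℂ) (s : ℂ) : ℂ :=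
  mellin (hXK χ f) (s + e) * ((2 * Real.pi : ℝ) : ℂ) ^ (s + e) * (Complex.Gamma (s + e))⁻¹

private lemma phi_diff {N D : ℕ} {k : ℤ} (χ : DirichletCharacter ℂ D)
    (f : CuspForm (G0 N) k) (e : ℂ) (h : Differentiable ℂ (mellin (hXK χ f))) :
    Differentiable ℂ (phi χ f e) := by
  have hs : Differentiable ℂ fun s : ℂ => s + e := by fun_prop
  have h1 : Differentiable ℂ fun s : ℂ => mellin (hXK χ f) (s + e) := h.comp hs
  have h3 : Differentiable ℂ fun s : ℂ => (Complex.Gamma (s + e))⁻¹ :=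
    Complex.differentiable_one_div_Gamma.comp hs
  have hpi : ((2 * Real.pi : ℝ) : ℂ) ≠ 0 := by
    have : (2 * Real.pi : ℝ) ≠ 0 := by positivity
    exact_mod_cast this
  have h2 : Differentiable ℂ fun s : ℂ => ((2 * Real.pi : ℝ) : ℂ) ^ (s + e) :=
    fun s => (hs s).const_cpow (Or.inl hpi)
  exact (h1.mul h2).mul h3

private lemma term_eq (x : ℂ) (t : ℂ) (m : ℕ) (e s : ℂ) (he : 0 < e.re) (hs : 3 / 2 < s.re) :
    Complex.Gamma (s + e) * (t * x) / ((2 * Real.pi * m : ℝ) : ℂ) ^ (s + e) *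
      (((2 * Real.pi : ℝ) : ℂ) ^ (s + e) * (Complex.Gamma (s + e))⁻¹) =
    x / (m : ℂ) ^ e / (m : ℂ) ^ s * t := by
  have hre : (s + e).re = s.re + e.re := Complex.add_re _ _
  have hG : Complex.Gamma (s + e) ≠ 0 := by
    apply Complex.Gamma_ne_zero_of_re_pos
    rw [hre]
    linarith
  have hne : s + e ≠ 0 := by
    intro h
    have := congrArg Complex.re h
    rw [hre, Complex.zero_re] at this
    linarith
  have hne' : e ≠ 0 := by
    intro h
    rw [h, Complex.zero_re] at he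
    exact lt_irrefl _ he
  rcases Nat.eq_zero_or_pos m with hm | hm
  · subst hm
    rw [Nat.cast_zero, mul_zero, Complex.ofReal_zero, Nat.cast_zero, Complex.zero_cpow hne,
      Complex.zero_cpow hne']
    simp
  · have hmC : (m : ℂ) ≠ 0 := by exact_mod_cast hm.ne'
    have hpi : ((2 * Real.pi : ℝ) : ℂ) ≠ 0 := by
      have : (2 * Real.pi : ℝ) ≠ 0 := by positivity
      exact_mod_cast this
    have e1 : ((2 * Real.pi * m : ℝ) : ℂ) ^ (s + e) =
        ((2 * Real.pi : ℝ) : ℂ) ^ (s + e) * (m : ℂ) ^ (s + e) := by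
      rw [Complex.ofReal_mul (2 * Real.pi) (m : ℝ), Complex.mul_cpow_ofReal_nonneg
        (by positivity) (Nat.cast_nonneg m), Complex.ofReal_natCast]
    have e2 : (m : ℂ) ^ (s + e) = (m : ℂ) ^ s * (m : ℂ) ^ e :=
      Complex.cpow_add _ _ hmC
    rw [e1, e2]
    have n1 : ((2 * Real.pi : ℝ) : ℂ) ^ (s + e) ≠ 0 := by
      rw [Complex.cpow_ne_zero_iff_of_exponent_ne_zero hne]
      exact hpi
    have n2 : (m : ℂ) ^ e ≠ 0 := by
      rw [Complex.cpow_ne_zero_iff_of_exponent_ne_zero hne']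
      exact hmC
    have n3 : (m : ℂ) ^ s ≠ 0 := by
      rw [Complex.cpow_ne_zero_iff]
      exact Or.inl hmC
    generalize Complex.Gamma (s + e) = g at hG ⊢
    generalize ((2 * Real.pi : ℝ) : ℂ) ^ (s + e) = c1 at n1 ⊢
    generalize (m : ℂ) ^ e = c2 at n2 ⊢
    generalize (m : ℂ) ^ s = c3 at n3 ⊢
    field_simp

private lemma half_eq (A : ℕ) : ((((2 * (A : ℤ) + 2 : ℤ)) : ℂ) - 1) / 2 = (A : ℂ) + 1 / 2 := by
  push_cast
  ring

private lemma agree (h5 : TN5) (N : ℕ) (hN : NeZero N) (A : ℕ) (f : CuspForm (G0 N) (2 * A + 2))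
    (D : ℕ) (hD : NeZero D) (χ : DirichletCharacter ℂ D) (L : ℂ → ℂ) (hχ : χ.IsPrimitive)
    (hL : IsLTwK χ f L) (s : ℂ) (hs : 3 / 2 < s.re) :
    L s * tau χ = phi χ f ((A : ℂ) + 1 / 2) s := by
  have hA : ((A : ℂ) + 1 / 2).re = (A : ℝ) + 1 / 2 := by
    rw [Complex.add_re, Complex.natCast_re]
    norm_num
  have hre : (A : ℝ) + 2 < (s + ((A : ℂ) + 1 / 2)).re := by
    rw [Complex.add_re, hA]
    linarith
  have h1 := (h5 N hN A f D hD χ hχ (s + ((A : ℂ) + 1 / 2)) hre).mul_right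
    (((2 * Real.pi : ℝ) : ℂ) ^ (s + ((A : ℂ) + 1 / 2)) * (Complex.Gamma (s + ((A : ℂ) + 1 / 2)))⁻¹)
  have h2 := (hL.2 s hs).mul_right (tau χ)
  have e : (fun m : ℕ => Complex.Gamma (s + ((A : ℂ) + 1 / 2)) * (tau χ * χ (m : ZMod D) * fcK f m) /
      ((2 * Real.pi * m : ℝ) : ℂ) ^ (s + ((A : ℂ) + 1 / 2)) *
      (((2 * Real.pi : ℝ) : ℂ) ^ (s + ((A : ℂ) + 1 / 2)) *
        (Complex.Gamma (s + ((A : ℂ) + 1 / 2)))⁻¹)) =
      fun m : ℕ => χ (m : ZMod D) * fcK f m / (m : ℂ) ^ (((((2 * (A : ℤ) + 2 : ℤ)) : ℂ) - 1) / 2) /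
        (m : ℂ) ^ s * tau χ := by
    funext m
    rw [mul_assoc (tau χ), half_eq]
    refine term_eq _ _ m _ s ?_ hs
    rw [hA]
    positivity
  rw [e] at h1
  rw [h2.unique h1]
  unfold phi
  ring

/-- TLC: the central value of the twisted `L`-function as a path sum. -/
theorem hTLC : StTLC := by
  intro h5 h6 h3 N hN A f D hD χ L I hχ hL hI h0
  have hd1 : Differentiable ℂ fun s : ℂ => L s * tau χ := hL.1.mul_const _
  have hd2 := phi_diff χ f ((A : ℂ) + 1 / 2) (h6 N hN A f D hD χ).1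
  have key : (fun s : ℂ => L s * tau χ) = phi χ f ((A : ℂ) + 1 / 2) := by
    apply AnalyticOnNhd.eq_of_eventuallyEq (𝕜 := ℂ) (z₀ := (2 : ℂ))
      (fun z _ => hd1.analyticAt z) (fun z _ => hd2.analyticAt z)
    have hopen : IsOpen {w : ℂ | 3 / 2 < w.re} := isOpen_lt continuous_const Complex.continuous_re
    have hmem : (2 : ℂ) ∈ {w : ℂ | 3 / 2 < w.re} := by
      change (3 / 2 : ℝ) < (2 : ℂ).re
      norm_num
    filter_upwards [hopen.mem_nhds hmem] with w hw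
    exact agree h5 N hN A f D hD χ L hχ hL w hw
  have k : L (1 / 2) * tau χ = phi χ f ((A : ℂ) + 1 / 2) (1 / 2) := congrFun key (1 / 2)
  rw [h0, zero_mul] at k
  unfold phi at k
  have e1 : (1 / 2 + ((A : ℂ) + 1 / 2) : ℂ) = (A : ℂ) + 1 := by ring
  rw [e1] at k
  have hpi : ((2 * Real.pi : ℝ) : ℂ) ≠ 0 := by
    have : (2 * Real.pi : ℝ) ≠ 0 := by positivity
    exact_mod_cast this
  have hA1 : (A : ℂ) + 1 ≠ 0 := by exact_mod_cast Nat.succ_ne_zero A
  have n1 : ((2 * Real.pi : ℝ) : ℂ) ^ ((A : ℂ) + 1) ≠ 0 := by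
    rw [Complex.cpow_ne_zero_iff_of_exponent_ne_zero hA1]
    exact hpi
  have n2 : (Complex.Gamma ((A : ℂ) + 1))⁻¹ ≠ 0 := by
    apply inv_ne_zero
    apply Complex.Gamma_ne_zero_of_re_pos
    rw [Complex.add_re, Complex.natCast_re, Complex.one_re]
    positivity
  have hm : mellin (hXK χ f) ((A : ℂ) + 1) = 0 := by
    rcases mul_eq_zero.mp k.symm with h | h
    · rcases mul_eq_zero.mp h with h | h
      · exact h
      · exact absurd h n1
    · exact absurd h n2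
  rw [← (h6 N hN A f D hD χ).2 I hI, hm]
  simp

end Pool.Agent.Helper66.TK
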